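import Pool.Agent.H58.FN.Targets
import Pool.Agent.H58.FM.COR
import Pool.Agent.H10.FM.CR3

/-!
# MP_6a7a6f_gt, board fnc_modules, row CO3: from the labelling to the divisibility
-/

set_option autoImplicit false

open Topology

namespace Pool.Agent.H12.FN

noncomputable section

open Pool.Agent.H59 Pool.Agent.H48.FR Pool.Agent.H58.FL Pool.Agent.H30.FA Pool.Agent.H58.FM
open Pool.Agent.H58.FN

theorem pf_CO3 (hFR3 : T_FR3) (hSEL3 : T_SEL3) (hAB3 : T_AB3) (hODD : T_ODD) (hVAL : T_VAL)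
    (hNMP : T_NMP) (hWGT : T_WGT) (hCR1 : T_CR1) (hRPM : T_RPM) (hEVL : T_EVL) : T_CO3 := by
  intro κ hκ hκ1 hL n ε hε hn hε6 hεκ N hK m hm hmn
  have hcomp := Pool.Agent.H10.FM.compact_CPn n
  have hne : Nonempty (CPn n) := ⟨bp ℂ n⟩
  obtain ⟨d', hd0, hd1, hd2⟩ : ∃ d' : ℝ, 0 < d' ∧ 2 * (ε + d') ≤ Real.arccos (2 * κ - 1) / 2 ∧
      ε + d' < Real.pi / 6 := by
    refine ⟨min (Real.arccos (2 * κ - 1) / 4 - ε) (Real.pi / 6 - ε) / 2, ?_, ?_, ?_⟩
    · have : 0 < min (Real.arccos (2 * κ - 1) / 4 - ε) (Real.pi / 6 - ε) :=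
        lt_min (by linarith) (by linarith)
      linarith
    · have := min_le_left (Real.arccos (2 * κ - 1) / 4 - ε) (Real.pi / 6 - ε)
      linarith
    · have := min_le_right (Real.arccos (2 * κ - 1) / 4 - ε) (Real.pi / 6 - ε)
      linarith
  obtain ⟨N₀, P, t, L, hL0, hW, hadj, hkf, hlip⟩ := hWGT (CPn n) ε d' hε hd0
  obtain ⟨r1, r2, -, r4, -⟩ := hRPM n
  set s : ℝ := ε + d' with hs
  have hs0 : 0 < s := by linarith
  set x : Fin N₀ → EuclideanSpace ℂ (Fin (n + 1)) := fun j => rp (P j) with hx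
  have hx1 : ∀ j, ‖x j‖ = 1 := fun j => r1 (P j)
  set δ : ℝ := 1 / (40 * (N₀ + 1)) with hδ
  have hN0 : (0 : ℝ) ≤ N₀ := Nat.cast_nonneg _
  have hδ0 : 0 < δ := by positivity
  have hδ1 : 40 * δ * Fintype.card (Fin N₀) ≤ 1 := by
    rw [Fintype.card_fin, hδ]
    have : 40 * (1 / (40 * ((N₀ : ℝ) + 1))) * N₀ = N₀ / (N₀ + 1) := by
      field_simp
    rw [this, div_le_one (by linarith)]
    linarith
  obtain ⟨σ⟩ := hSEL3 (EuclideanSpace ℂ (Fin (n + 1))) (Fin N₀) (UE (CPn n) ε) κ δ x t hx1 hW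
    (fun u i j hi hj => r4 κ (P i) (P j) hκ.le hκ1 (lt_of_lt_of_le (hadj u i j hi hj) hd1))
    hκ hL hδ0 hδ1
  obtain ⟨hD1, hD2, hcov, hclu, c, θ₁, θ₂, η, hclc, h1, h2, h3⟩ :=
    hFR3 (EuclideanSpace ℂ (Fin (n + 1))) (Fin N₀) (UE (CPn n) ε) κ δ x t σ
  obtain ⟨dm, hdm, hdm1, hdm2⟩ : ∃ dm : ℝ, 0 < dm ∧ L * dm ≤ δ ∧ s + dm ≤ Real.pi / 6 := by
    have hl1 : 0 < L + 1 := by linarith
    refine ⟨min (δ / (L + 1)) (Real.pi / 6 - s), lt_min (by positivity) (by linarith), ?_, ?_⟩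
    · calc L * min (δ / (L + 1)) (Real.pi / 6 - s) ≤ L * (δ / (L + 1)) :=
            mul_le_mul_of_nonneg_left (min_le_left _ _) hL0
        _ ≤ δ := by
            rw [← mul_div_assoc, div_le_iff₀ hl1]
            nlinarith
    · have := min_le_right (δ / (L + 1)) (Real.pi / 6 - s)
      linarith
  obtain ⟨b, c₀, hb, hc, hbc, hbd, hval⟩ := hCR1 n ε hε N dm hn hdm hK
  have hkur : ∀ p q : CPn n, dist (kf (CPn n) ε hε p).1 (kf (CPn n) ε hε q).1 ≤ dist p q :=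
    fun p q => dist_kur_le p q
  -- small sets
  have hOn : On (K1 x t δ ∪ K2 x t δ) b := by
    intro t' ht'
    refine hcov ?_
    intro u hu v hv
    have e1 := (hb t' ht') u hu v hv
    exact (hlip u v).trans ((mul_le_mul_of_nonneg_left e1.le hL0).trans hdm1)
  -- no monopoles at the points of the space
  have hov : ∀ (p : CPn n) (j : Fin N₀), t (kf (CPn n) ε hε p) j ≠ 0 →
      3 / 4 < ‖inner ℂ (rp p) (x j)‖ ^ 2 := by
    intro p j hj
    have hd := hkf hε p j hj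
    have e2 : ‖inner ℂ (rp p) (rp (P j))‖ = Real.cos (dist p (P j)) := r2 p (P j)
    have e3 : Real.cos (Real.pi / 6) < Real.cos (dist (P j) p) :=
      Real.cos_lt_cos_of_nonneg_of_le_pi dist_nonneg (by linarith [Real.pi_pos]) (by linarith)
    rw [Real.cos_pi_div_six] at e3
    have h3 := Real.sq_sqrt (show (0 : ℝ) ≤ 3 by norm_num)
    have h4 := Real.sqrt_nonneg 3
    show 3 / 4 < ‖inner ℂ (rp p) (rp (P j))‖ ^ 2
    rw [e2, dist_comm]
    nlinarith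
  have hnm : ∀ (p : CPn n) (a : ℝ), 0 ≤ a → ¬ HM x a (t (kf (CPn n) ε hε p)) := by
    rintro p a ha ⟨q, hq, hqa⟩
    have h0 : ∀ i, t (kf (CPn n) ε hε p) (q i) ≠ 0 := fun i h => by
      have := hqa i
      rw [h] at this
      linarith
    exact hq ((hNMP (EuclideanSpace ℂ (Fin (n + 1))) (rp p) (x (q 0)) (x (q 1)) (x (q 2)) (r1 p)
      (hx1 _) (hx1 _) (hx1 _) (hov p _ (h0 0)) (hov p _ (h0 1)) (hov p _ (h0 2))).2.2.2.2
      (x (q 3)) (hx1 _) (hov p _ (h0 3)))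
  have hsupp : ∀ t' ∈ (bdL (2 * n + 1) (UE (CPn n) ε) b).support,
      Set.range t' ∈ K1 x t δ ∧ Set.range t' ∉ K2 x t δ := by
    intro t₀ ht
    rw [hbd] at ht
    have ht1 : t₀ ∈ (mapL (2 * n + 1) (kf (CPn n) ε hε) c₀).support := by
      rw [Finsupp.mem_support_iff] at ht ⊢
      intro h0
      apply ht
      rw [Finsupp.smul_apply, h0, smul_zero]
    obtain ⟨t', ht', rfl⟩ : ∃ t' ∈ c₀.support, kf (CPn n) ε hε ∘ t' = t₀ := by
      classical
      have h2 := Finsupp.mapDomain_support ht1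
      rw [Finset.mem_image] at h2
      exact h2
    have hsm := hc t' ht'
    refine ⟨⟨?_, ?_⟩, fun hcon => ?_⟩
    · rintro _ ⟨i, rfl⟩ _ ⟨j, rfl⟩
      have e1 := hsm (t' i) ⟨i, rfl⟩ (t' j) ⟨j, rfl⟩
      have e2 := (hkur (t' i) (t' j)).trans e1.le
      exact (hlip _ _).trans ((mul_le_mul_of_nonneg_left e2 hL0).trans hdm1)
    · rintro _ ⟨i, rfl⟩
      exact hnm (t' i) _ (by positivity)
    · exact hnm (t' 0) _ (by positivity) (hcon.2 _ ⟨0, rfl⟩)
  obtain ⟨B₁, B₂, hB⟩ := hAB3 (UE (CPn n) ε) (K1 x t δ) (K2 x t δ) hD1 hD2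
    (up fun f => x (σ.v f)) c θ₁ θ₂ η hclu hclc h1 h2 h3 n hn b hOn hsupp
  -- the value
  have hv0 : ∀ u, t u (σ.v u) ≠ 0 := fun u h => by
    have := σ.d_small u
    rw [h] at this
    linarith
  have hV : ev (2 * n) (PL (List.replicate n (up fun f => x (σ.v f))))
      (bdL (2 * n + 1) (UE (CPn n) ε) b) = N *
      ev (2 * n) (PL (List.replicate n (ff n))) c₀ := by
    rw [hbd, (hEVL _ _).2.1]
    congr 1
    rw [(hEVL (UE (CPn n) ε) (2 * n)).2.2.2.2.2.2]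
    have e1 : (fun y : ℕ → CPn n => PL (List.replicate n (up fun f => x (σ.v f)))
        (fun i => kf (CPn n) ε hε (y i))) =
        PL (List.replicate n (up fun p => x (σ.v (kf (CPn n) ε hε p)))) := by
      funext y
      exact PL_pull _ _ _ _
    rw [e1]
    refine hVAL n s (fun p => x (σ.v (kf (CPn n) ε hε p))) hs0 hd2 (fun p => hx1 _)
      (fun p => ?_) dm hdm hdm2 c₀ hc hbc
    have hd := hkf hε p _ (hv0 (kf (CPn n) ε hε p))
    have e2 : ‖inner ℂ (rp (P (σ.v (kf (CPn n) ε hε p)))) (rp p)‖ =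
        Real.cos (dist (P (σ.v (kf (CPn n) ε hε p))) p) := r2 _ _
    show Real.arccos ‖inner ℂ (rp (P (σ.v (kf (CPn n) ε hε p)))) (rp p)‖ < s
    rw [e2, Real.arccos_cos dist_nonneg (by linarith [Real.pi_pos])]
    exact hd
  rw [hV] at hB
  refine hODD n m N B₁ B₂ hn hm hmn ?_
  rcases hval with h | h
  · left
    rw [h, mul_one] at hB
    exact_mod_cast hB
  · right
    rw [h] at hB
    have e1 : (64 : ℝ) ^ n * ((-N : ℤ) : ℝ) = n * B₁ + n.choose 2 * B₂ := by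
      rw [← hB]
      push_cast
      ring
    exact_mod_cast e1

end

end Pool.Agent.H12.FN
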