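import Pool.Agent.H58.FN.Targets

/-!
# MP_6a7a6f_gt, board fnc_modules, row SEL3: existence of the selected points
-/

set_option autoImplicit false

open Topology

namespace Pool.Agent.H12.FN

open Pool.Agent.H59 Pool.Agent.H48.FR Pool.Agent.H58.FL Pool.Agent.H30.FA Pool.Agent.H58.FM
open Pool.Agent.H58.FN

theorem sel3_swap : ∀ a b c d : Fin 6, pen b a c d = -pen a b c d := by decide

theorem sel3_val : ∀ a b c d : Fin 6, pen a b c d = 0 ∨ pen a b c d = 1 ∨ pen a b c d = -1 := by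
  decide

/-- a positive monopole -/
theorem sel3_pos {E J : Type} [NormedAddCommGroup E] [InnerProductSpace ℂ E] (κ a : ℝ)
    (x : J → E) (w : J → ℝ) (hx : ∀ j, ‖x j‖ = 1) (ha : 0 ≤ a)
    (hw : ∀ i j, w i ≠ 0 → w j ≠ 0 → κ ≤ ‖inner ℂ (x i) (x j)‖ ^ 2) (hL : Lab κ)
    (h : HM x a w) : ∃ q : Fin 4 → J,
      mn (x (q 0)) (x (q 1)) (x (q 2)) (x (q 3)) = 1 ∧ ∀ i, a < w (q i) := by
  obtain ⟨q, hq, hqa⟩ := h
  have h0 : ∀ i, w (q i) ≠ 0 := fun i => by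
    have := hqa i
    intro h
    rw [h] at this
    linarith
  obtain ⟨c, hc⟩ := hL E (Set.range fun i => x (q i)) (by
    rintro _ ⟨i, rfl⟩
    exact hx _) (by
    rintro _ ⟨i, rfl⟩ _ ⟨j, rfl⟩
    exact hw _ _ (h0 i) (h0 j))
  have e1 := hc (x (q 0)) ⟨0, rfl⟩ (x (q 1)) ⟨1, rfl⟩ (x (q 2)) ⟨2, rfl⟩ (x (q 3)) ⟨3, rfl⟩
  have e2 := hc (x (q 1)) ⟨1, rfl⟩ (x (q 0)) ⟨0, rfl⟩ (x (q 2)) ⟨2, rfl⟩ (x (q 3)) ⟨3, rfl⟩
  rw [sel3_swap (c (x (q 0)))] at e2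
  rcases sel3_val (c (x (q 0))) (c (x (q 1))) (c (x (q 2))) (c (x (q 3))) with h1 | h1 | h1
  · rw [h1, Int.cast_zero] at e1
    exact absurd e1 hq
  · rw [h1, Int.cast_one] at e1
    exact ⟨q, e1, hqa⟩
  · rw [h1, neg_neg, Int.cast_one] at e2
    refine ⟨![q 1, q 0, q 2, q 3], e2, fun i => ?_⟩
    fin_cases i
    · exact hqa 1
    · exact hqa 0
    · exact hqa 2
    · exact hqa 3

theorem pf_SEL3 : T_SEL3 := by
  intro E J X _ _ _ κ δ x t hx ht hadj hκ hL hδ hs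
  have key : ∀ u : X, ∃ (v : J) (q : Fin 4 → J) (p : Fin 6 → J) (l : Fin 4),
      40 * δ ≤ t u v ∧ (∀ j, t u j ≤ t u v) ∧
      (HM x (20 * δ) (t u) → IsQ x (20 * δ) (t u) q) ∧
      (HP x (4 * δ) (t u) → IsH x (4 * δ) (t u) p) ∧ ∀ i, t u (q l) ≤ t u (q i) := by
    intro u
    have hne : Nonempty J := by
      by_contra h
      rw [not_nonempty_iff] at h
      have := (ht u).2
      simp at this
    obtain ⟨v, hv⟩ := Finite.exists_max (t u)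
    have h1 : 40 * δ ≤ t u v := by
      have e1 : (1 : ℝ) ≤ Fintype.card J * t u v := by
        rw [← (ht u).2]
        calc ∑ j, t u j ≤ ∑ _j : J, t u v := Finset.sum_le_sum fun j _ => hv j
          _ = _ := by rw [Finset.sum_const, Finset.card_univ, nsmul_eq_mul]
      have e2 : (0 : ℝ) < Fintype.card J := by exact_mod_cast Fintype.card_pos
      nlinarith
    have hq : ∃ q : Fin 4 → J, HM x (20 * δ) (t u) → IsQ x (20 * δ) (t u) q := by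
      by_cases hM : HM x (20 * δ) (t u)
      · obtain ⟨q₀, hq₀, hq₀'⟩ := sel3_pos κ (20 * δ) x (t u) hx (by positivity)
          (fun i j => hadj u i j) hL hM
        have hn : Nonempty {q : Fin 4 → J // mn (x (q 0)) (x (q 1)) (x (q 2)) (x (q 3)) = 1 ∧
          ∀ i, 20 * δ < t u (q i)} := ⟨⟨q₀, hq₀, hq₀'⟩⟩
        obtain ⟨q, hq⟩ := Finite.exists_max fun q : {q : Fin 4 → J //
          mn (x (q 0)) (x (q 1)) (x (q 2)) (x (q 3)) = 1 ∧ ∀ i, 20 * δ < t u (q i)} =>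
            ∑ i, t u (q.1 i)
        exact ⟨q.1, fun _ => ⟨q.2.1, q.2.2, fun q' h1 h2 => hq ⟨q', h1, h2⟩⟩⟩
      · exact ⟨fun _ => v, fun h => absurd h hM⟩
    have hp : ∃ p : Fin 6 → J, HP x (4 * δ) (t u) → IsH x (4 * δ) (t u) p := by
      by_cases hP : HP x (4 * δ) (t u)
      · obtain ⟨p₀, hp₀, hp₀'⟩ := hP
        have hn : Nonempty {p : Fin 6 → J // IsP x p ∧ ∀ i, 4 * δ < t u (p i)} :=
          ⟨⟨p₀, hp₀, hp₀'⟩⟩
        obtain ⟨p, hp⟩ := Finite.exists_max fun p : {p : Fin 6 → J // IsP x p ∧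
          ∀ i, 4 * δ < t u (p i)} => ∑ i, t u (p.1 i)
        exact ⟨p.1, fun _ => ⟨p.2.1, p.2.2, fun p' h1 h2 => hp ⟨p', h1, h2⟩⟩⟩
      · exact ⟨fun _ => v, fun h => absurd h hP⟩
    obtain ⟨q, hq⟩ := hq
    obtain ⟨p, hp⟩ := hp
    obtain ⟨l, hl⟩ := Finite.exists_min fun i : Fin 4 => t u (q i)
    exact ⟨v, q, p, l, h1, hv, hq, hp, hl⟩
  choose v q p l h1 h2 h3 h4 h5 using key
  exact ⟨⟨v, q, p, l, hx, ht, hadj, hκ, fun S hS hS' => hL E S hS hS', hδ, h1, h2, h3, h4, h5⟩⟩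

end Pool.Agent.H12.FN
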