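import Pool.Agent.H6.FN.TargetsG

/-!
# (UNI): the order of a uniprimitive group
-/

set_option autoImplicit false

namespace Pool.Agent.H12.FN

open MulAction FI

theorem pf_UNI (HIT : T_HIT) (BAS : T_BAS) (UPB : T_UPB) : T_UNI := by
  intro G α _ _ _ _ hP hM
  classical
  have hne : Nonempty α := by
    by_contra h
    rw [not_nonempty_iff] at h
    apply hM
    exact ⟨fun x => (IsEmpty.false (x 0)).elim⟩
  have hn : (0 : ℝ) < Nat.card α := by exact_mod_cast Nat.card_pos
  set n : ℝ := (Nat.card α : ℝ) with hndef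
  set d : ℝ := n ^ ((1 : ℝ) / 4) * (2 / 7) with hd
  have hn4 : 0 < n ^ ((1 : ℝ) / 4) := Real.rpow_pos_of_pos hn _
  have hdpos : 0 < d := by positivity
  obtain ⟨B, hB, hBc⟩ := HIT α (fun x y => (Set.toFinite (df G x y)).toFinset)
    (fun x y => x ≠ y) d hdpos (by
      intro x y hxy
      have h := UPB G α hP hM x y hxy
      rw [← Set.ncard_eq_toFinset_card (df G x y) (Set.toFinite _)]
      rw [hd]
      linarith)
  have hbase : ∀ g : G, (∀ b ∈ B, g • b = b) → g = 1 := by
    intro g hg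
    apply FaithfulSMul.eq_of_smul_eq_smul (α := α)
    intro x
    rw [one_smul]
    by_contra hx
    obtain ⟨b, hb, hb'⟩ := hB x (g • x) (fun h => hx h.symm)
    rw [Set.Finite.mem_toFinset] at hb'
    exact hb' g rfl (hg b hb)
  have h1 := BAS G α B hbase
  have h2 : (Nat.card G : ℝ) ≤ n ^ B.card := by
    rw [hndef]
    exact_mod_cast h1
  have h3 : n ^ B.card = Real.exp (B.card * Real.log n) := by
    rw [mul_comm, Real.exp_mul, Real.exp_log hn, Real.rpow_natCast]
  have hlog : 0 ≤ Real.log n := by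
    apply Real.log_nonneg
    rw [hndef]
    exact_mod_cast Nat.card_pos
  rw [h3] at h2
  refine h2.trans (Real.exp_le_exp.2 ?_)
  have h4 : 2 * n / d = 7 * n ^ ((3 : ℝ) / 4) := by
    have h5 : n = n ^ ((1 : ℝ) / 4) * n ^ ((3 : ℝ) / 4) := by
      rw [← Real.rpow_add hn]
      norm_num
    rw [hd, div_eq_iff (by positivity)]
    calc 2 * n = 2 * (n ^ ((1 : ℝ) / 4) * n ^ ((3 : ℝ) / 4)) := by rw [← h5]
      _ = _ := by ring
  rw [h4] at hBc
  calc (B.card : ℝ) * Real.log n ≤ (7 * n ^ ((3 : ℝ) / 4) * Real.log n + 1) * Real.log n :=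
        mul_le_mul_of_nonneg_right hBc hlog
    _ = _ := by ring

end Pool.Agent.H12.FN
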